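import Mathlib

/-!
# Tutte's theorem in a convenient form
-/

set_option autoImplicit false

namespace Pool.Agent.TOKS

open SimpleGraph

variable {X : Type*} [Fintype X] [DecidableEq X]

/-- A family of pairwise disjoint odd sets, each of which is closed under adjacency outside `S`. -/
structure OddClosed (H : SimpleGraph X) (S : Finset X) (C : Finset (Finset X)) : Prop where
  disj : ∀ K ∈ C, Disjoint K S
  odd : ∀ K ∈ C, Odd K.card
  closed : ∀ K ∈ C, ∀ x ∈ K, ∀ y, H.Adj x y → y ∉ S → y ∈ K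
  pair : ∀ K ∈ C, ∀ L ∈ C, K ≠ L → Disjoint K L

omit [DecidableEq X] in
/-- Tutte's theorem. -/
theorem tutte_form (H : SimpleGraph X)
    (h : ¬ ∃ f : X → X, (∀ x, f (f x) = x) ∧ ∀ x, H.Adj x (f x)) :
    ∃ (S : Finset X) (C : Finset (Finset X)), OddClosed H S C ∧ S.card < C.card := by
  classical
  have h1 : ¬ ∃ M : Subgraph H, M.IsPerfectMatching := by
    rintro ⟨M, hM⟩
    apply h
    have h2 : ∀ x, ∃! y, M.Adj x y := fun x => hM.1 (hM.2 x)
    refine ⟨fun x => (h2 x).choose, fun x => ?_, fun x => M.adj_sub (h2 x).choose_spec.1⟩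
    have h3 : M.Adj x (h2 x).choose := (h2 x).choose_spec.1
    exact ((h2 (h2 x).choose).choose_spec.2 x h3.symm).symm
  rw [SimpleGraph.tutte] at h1
  push Not at h1
  obtain ⟨u, hu⟩ := h1
  unfold IsTutteViolator at hu
  set H' := ((⊤ : H.Subgraph).deleteVerts u).coe with hH'
  have hmem : ∀ x : X, x ∉ u → x ∈ ((⊤ : H.Subgraph).deleteVerts u).verts := by
    intro x hx
    simp [hx]
  have hmem' : ∀ x ∈ ((⊤ : H.Subgraph).deleteVerts u).verts, x ∉ u := by
    intro x hx
    simpa using hx
  set im : H'.ConnectedComponent → Finset X := fun c =>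
    Finset.univ.filter (fun x => ∃ hx : x ∈ ((⊤ : H.Subgraph).deleteVerts u).verts,
      (⟨x, hx⟩ : ((⊤ : H.Subgraph).deleteVerts u).verts) ∈ c.supp) with him
  have him_mem : ∀ c x, x ∈ im c ↔ ∃ hx : x ∈ ((⊤ : H.Subgraph).deleteVerts u).verts,
      (⟨x, hx⟩ : ((⊤ : H.Subgraph).deleteVerts u).verts) ∈ c.supp := by
    intro c x
    simp [him]
  have hcard : ∀ c, (im c).card = c.supp.ncard := by
    intro c
    have h3 : ((im c : Finset X) : Set X) = Subtype.val '' c.supp := by
      ext x
      rw [Finset.mem_coe, him_mem]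
      constructor
      · rintro ⟨hx, hx'⟩
        exact ⟨⟨x, hx⟩, hx', rfl⟩
      · rintro ⟨⟨y, hy⟩, hy', rfl⟩
        exact ⟨hy, hy'⟩
    rw [← Set.ncard_coe_finset, h3, Set.ncard_image_of_injective _ Subtype.val_injective]
  have hinj : Function.Injective im := by
    intro c d hcd
    obtain ⟨x, rfl⟩ := c.exists_rep
    have h4 : x.1 ∈ im (H'.connectedComponentMk x) := (him_mem _ _).2 ⟨x.2, rfl⟩
    change x.1 ∈ im (H'.connectedComponentMk x) at h4
    change im (H'.connectedComponentMk x) = im d at hcd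
    rw [hcd, him_mem] at h4
    obtain ⟨hx, hx'⟩ := h4
    exact hx'
  refine ⟨u.toFinset, (H'.oddComponents.toFinset).image im, ?_, ?_⟩
  · refine ⟨?_, ?_, ?_, ?_⟩
    · intro K hK
      rw [Finset.mem_image] at hK
      obtain ⟨c, _, rfl⟩ := hK
      rw [Finset.disjoint_left]
      intro x hx hxu
      rw [him_mem] at hx
      exact hmem' x hx.1 (Set.mem_toFinset.1 hxu)
    · intro K hK
      rw [Finset.mem_image] at hK
      obtain ⟨c, hc, rfl⟩ := hK
      rw [hcard]
      have hc' := Set.mem_toFinset.1 hc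
      exact hc'
    · intro K hK x hx y hxy hyS
      rw [Finset.mem_image] at hK
      obtain ⟨c, _, rfl⟩ := hK
      rw [him_mem] at hx ⊢
      obtain ⟨hx1, hx2⟩ := hx
      have hy : y ∉ u := fun h => hyS (Set.mem_toFinset.2 h)
      refine ⟨hmem y hy, ?_⟩
      have hadj : H'.Adj ⟨x, hx1⟩ ⟨y, hmem y hy⟩ := by
        rw [hH']
        simp only [Subgraph.coe_adj, Subgraph.deleteVerts_adj, Subgraph.verts_top, Set.mem_univ,
          true_and, Subgraph.top_adj]
        exact ⟨hmem' x hx1, hy, hxy⟩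
      rw [ConnectedComponent.mem_supp_iff] at hx2 ⊢
      rw [← hx2]
      exact ConnectedComponent.sound hadj.symm.reachable
    · intro K hK L hL hKL
      rw [Finset.mem_image] at hK hL
      obtain ⟨c, _, rfl⟩ := hK
      obtain ⟨d, _, rfl⟩ := hL
      rw [Finset.disjoint_left]
      intro x hx hx'
      rw [him_mem] at hx hx'
      apply hKL
      have h5 : c = d := by
        rw [← hx.2, ← hx'.2]
      rw [h5]
  · rw [Finset.card_image_of_injective _ hinj]
    rw [Set.ncard_eq_toFinset_card', Set.ncard_eq_toFinset_card'] at hu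
    exact hu

end Pool.Agent.TOKS
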